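import Pool.Agent.Y511.BY.Crit

/-!
The rings `ℤ[ε]`, `ε ^ 2 = m ε - 1`, `m ≥ 4`, `m ≡ 2 (mod 3)`.
-/

set_option autoImplicit false

open scoped BigOperators

namespace Pool.Agent.Y511.BY.Fam

open Pool.Agent.H741R3.Byk

noncomputable section

variable (m : ℤ)

/-- A real embedding `a + b ε ↦ a + b t`. -/
def emb (t : ℝ) (ht : t * t = -1 + m * t) : QuadraticAlgebra ℤ (-1) m →ₐ[ℤ] ℝ :=
  QuadraticAlgebra.lift ⟨t, by rw [ht]; simp⟩

variable {m}

lemma emb_apply (t : ℝ) (ht : t * t = -1 + m * t) (x : QuadraticAlgebra ℤ (-1) m) :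
    emb m t ht x = x.re + x.im * t := by
  change x.re • (1 : ℝ) + x.im • t = x.re + x.im * t
  simp

/-- The norm of a unit. -/
lemma norm_unit (hm3 : m % 3 = 2) (x y : QuadraticAlgebra ℤ (-1) m) (h : x * y = 1) :
    x.re ^ 2 + m * x.re * x.im + x.im ^ 2 = 1 := by
  have h1 := congrArg QuadraticAlgebra.re h
  have h2 := congrArg QuadraticAlgebra.im h
  simp only [QuadraticAlgebra.re_mul, QuadraticAlgebra.im_mul] at h1 h2
  change _ = (1 : ℤ) at h1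
  change _ = (0 : ℤ) at h2
  have hN : (x.re ^ 2 + m * x.re * x.im + x.im ^ 2) * (y.re ^ 2 + m * y.re * y.im + y.im ^ 2)
      = 1 := by
    have : (x.re ^ 2 + m * x.re * x.im + x.im ^ 2) * (y.re ^ 2 + m * y.re * y.im + y.im ^ 2)
        = (x.re * y.re + -1 * x.im * y.im) ^ 2
          + m * (x.re * y.re + -1 * x.im * y.im) * (x.re * y.im + x.im * y.re + m * x.im * y.im)
          + (x.re * y.im + x.im * y.re + m * x.im * y.im) ^ 2 := by ring
    rw [this, h1, h2]; norm_num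
  rcases Int.eq_one_or_neg_one_of_mul_eq_one hN with h | h
  · exact h
  · exfalso
    obtain ⟨l, hl⟩ : ∃ l, m = 3 * l + 2 := ⟨m / 3, by omega⟩
    have h3 : (x.re + x.im) ^ 2 = -1 - 3 * (l * x.re * x.im) := by
      linear_combination h - (x.re * x.im) * hl
    have h4 : (x.re + x.im) % 3 = 0 ∨ (x.re + x.im) % 3 = 1 ∨ (x.re + x.im) % 3 = 2 := by omega
    have h5 : ((x.re + x.im) ^ 2) % 3 = 2 := by rw [h3]; omega
    rcases h4 with ha | ha | ha <;> simp [pow_two, Int.mul_emod, ha] at h5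

/-- The generator `ε`. -/
def eps (m : ℤ) : QuadraticAlgebra ℤ (-1) m := ⟨0, 1⟩

lemma eps_sq : eps m * eps m = (m : QuadraticAlgebra ℤ (-1) m) * eps m - 1 := by
  have h1r : (1 : QuadraticAlgebra ℤ (-1) m).re = 1 := rfl
  have h1i : (1 : QuadraticAlgebra ℤ (-1) m).im = 0 := rfl
  ext
  · simp [eps, h1r]
  · simp [eps, h1i]

/-- `ε` is a unit. -/
def epsUnit (m : ℤ) : (QuadraticAlgebra ℤ (-1) m)ˣ where
  val := eps m
  inv := m - eps m
  val_inv := by linear_combination -(eps_sq (m := m))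
  inv_val := by linear_combination -(eps_sq (m := m))

lemma generated (x : QuadraticAlgebra ℤ (-1) m) :
    x ∈ AddSubmonoid.closure {u : QuadraticAlgebra ℤ (-1) m | IsUnit u} := by
  set S : AddSubmonoid (QuadraticAlgebra ℤ (-1) m) :=
    AddSubmonoid.closure {u : QuadraticAlgebra ℤ (-1) m | IsUnit u} with hS
  have key : ∀ u : QuadraticAlgebra ℤ (-1) m, IsUnit u → ∀ k : ℤ, k • u ∈ S := by
    intro u hu k
    rcases Int.eq_nat_or_neg k with ⟨l, rfl | rfl⟩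
    · rw [natCast_zsmul]
      exact S.nsmul_mem (AddSubmonoid.subset_closure hu) l
    · rw [neg_smul, natCast_zsmul, ← smul_neg]
      exact S.nsmul_mem (AddSubmonoid.subset_closure hu.neg) l
  have e : x = x.re • (1 : QuadraticAlgebra ℤ (-1) m) + x.im • eps m := by
    ext
    · simp [eps]
    · simp [eps]
  rw [e]
  exact S.add_mem (key 1 isUnit_one _) (key _ (epsUnit m).isUnit _)

theorem kernel (hm : 4 ≤ m) (hm3 : m % 3 = 2) (k : ℕ) (hk : 2 * m - 5 ∣ 2 ^ k + 1)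
    (K : Type*) [Field K] [Algebra (QuadraticAlgebra ℤ (-1) m) K] :
    ∃ x, bykToSteinberg (QuadraticAlgebra ℤ (-1) m) K 2 x = 0 ∧ ∀ n : ℤ, n • x = 0 → n = 0 := by
  have hmR : (4 : ℝ) ≤ (m : ℝ) := by exact_mod_cast hm
  have hD : √((m : ℝ) ^ 2 - 4) * √((m : ℝ) ^ 2 - 4) = (m : ℝ) ^ 2 - 4 :=
    Real.mul_self_sqrt (by nlinarith)
  have hD0 : 0 ≤ √((m : ℝ) ^ 2 - 4) := Real.sqrt_nonneg _
  have hD1 : 1 ≤ √((m : ℝ) ^ 2 - 4) := by
    rw [Real.one_le_sqrt]; nlinarith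
  obtain ⟨t₁, ht₁⟩ : ∃ t : ℝ, t = ((m : ℝ) + √((m : ℝ) ^ 2 - 4)) / 2 := ⟨_, rfl⟩
  obtain ⟨t₂, ht₂⟩ : ∃ t : ℝ, t = ((m : ℝ) - √((m : ℝ) ^ 2 - 4)) / 2 := ⟨_, rfl⟩
  have r₁ : t₁ * t₁ = -1 + m * t₁ := by rw [ht₁]; linear_combination hD / 4
  have r₂ : t₂ * t₂ = -1 + m * t₂ := by rw [ht₂]; linear_combination hD / 4
  have hsum : t₁ + t₂ = m := by rw [ht₁, ht₂]; ring
  have hprod : t₁ * t₂ = 1 := by rw [ht₁, ht₂]; linear_combination -hD / 4
  have g₁ : 2 < t₁ := by rw [ht₁]; linarith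
  have g₂ : 0 < t₂ := by nlinarith
  have g₃ : t₂ < 2 := by nlinarith
  have hcq : ∃ c : QuadraticAlgebra ℤ (-1) m, c * (eps m - 2) = 1 + eps m ^ k := by
    have d1 : eps m - 2 ∣ eps m ^ k - 2 ^ k := sub_dvd_pow_sub_pow _ _ k
    have d2 : eps m - 2 ∣ ((2 * m - 5 : ℤ) : QuadraticAlgebra ℤ (-1) m) :=
      ⟨eps m + 2 - m, by push_cast; linear_combination -(eps_sq (m := m))⟩
    have d3 : ((2 * m - 5 : ℤ) : QuadraticAlgebra ℤ (-1) m) ∣
        ((2 ^ k + 1 : ℤ) : QuadraticAlgebra ℤ (-1) m) := by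
      obtain ⟨l, hl⟩ := hk
      exact ⟨l, by rw [hl]; push_cast; ring⟩
    have d4 : eps m - 2 ∣ 1 + eps m ^ k := by
      have := dvd_add d1 (d2.trans d3)
      have e : eps m ^ k - 2 ^ k + ((2 ^ k + 1 : ℤ) : QuadraticAlgebra ℤ (-1) m)
          = 1 + eps m ^ k := by push_cast; ring
      rwa [e] at this
    obtain ⟨c, hc⟩ := d4
    exact ⟨c, by rw [hc]; ring⟩
  obtain ⟨c, hc⟩ := hcq
  have ee : ∀ (t : ℝ) (ht : t * t = -1 + m * t), emb m t ht (eps m) = t := by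
    intro t ht
    rw [emb_apply]; simp [eps]
  refine criterion K (emb m t₁ r₁).toRingHom (emb m t₂ r₂).toRingHom ?_ (epsUnit m ^ k) c
    (eps m - 2) ?_ ?_ ?_
  · intro u
    have hN := norm_unit hm3 (u : QuadraticAlgebra ℤ (-1) m) _ u.mul_inv
    change 0 < emb m t₁ r₁ (u : QuadraticAlgebra ℤ (-1) m) *
      emb m t₂ r₂ (u : QuadraticAlgebra ℤ (-1) m)
    rw [emb_apply, emb_apply]
    set a := (u : QuadraticAlgebra ℤ (-1) m).re
    set b := (u : QuadraticAlgebra ℤ (-1) m).im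
    have h2 : ((a : ℝ) + b * t₁) * (a + b * t₂) = ((a ^ 2 + m * a * b + b ^ 2 : ℤ) : ℝ) := by
      push_cast
      linear_combination (a * b : ℝ) * hsum + (b : ℝ) ^ 2 * hprod
    rw [h2, hN]; norm_num
  · rw [Units.val_pow_eq_pow_val]
    change 0 < emb m t₁ r₁ (eps m ^ k)
    rw [map_pow, ee]
    positivity
  · rw [hc, Units.val_pow_eq_pow_val]
    rfl
  · change emb m t₁ r₁ (eps m - 2) * emb m t₂ r₂ (eps m - 2) < 0
    rw [map_sub, map_sub, ee, ee, map_ofNat, map_ofNat]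
    nlinarith

end

end Pool.Agent.Y511.BY.Fam
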