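import Pool.Agent.Y511.BY.F21

/-!
The ring of integers of `ℚ(√21)` is generated by units and Euclidean.
-/

set_option autoImplicit false

open scoped BigOperators NumberField

namespace Pool.Agent.Y511.BY.F21

open Pool.Agent.H741R3.Byk

noncomputable section

lemma elt_zsmul (m c d : ℤ) : m • elt c d = elt (m * c) (m * d) := by
  apply ext'
  rw [map_zsmul]
  change m • (⟨c, d⟩ : F) = ⟨((m * c : ℤ) : ℚ), ((m * d : ℤ) : ℚ)⟩
  ext <;> simp

lemma isUnit_eps : IsUnit (elt 0 1) := by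
  apply IsUnit.of_mul_eq_one (elt 5 (-1))
  rw [elt_mul, ← elt_one]
  norm_num

lemma generated (x : 𝓞 F) : x ∈ AddSubmonoid.closure {u : 𝓞 F | IsUnit u} := by
  obtain ⟨a, b, rfl⟩ := exists_elt x
  set S : AddSubmonoid (𝓞 F) := AddSubmonoid.closure {u : 𝓞 F | IsUnit u} with hS
  have key : ∀ u : 𝓞 F, IsUnit u → ∀ m : ℤ, m • u ∈ S := by
    intro u hu m
    rcases Int.eq_nat_or_neg m with ⟨k, rfl | rfl⟩
    · rw [natCast_zsmul]
      exact S.nsmul_mem (AddSubmonoid.subset_closure hu) k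
    · rw [neg_smul, natCast_zsmul, ← smul_neg]
      exact S.nsmul_mem (AddSubmonoid.subset_closure hu.neg) k
  have e : elt a b = a • (1 : 𝓞 F) + b • elt 0 1 := by
    rw [← elt_one, elt_zsmul, elt_zsmul, elt_add]
    congr 1 <;> ring
  rw [e]
  exact S.add_mem (key 1 isUnit_one _) (key _ isUnit_eps _)

lemma euclid : ∃ φ : 𝓞 F → ℕ, ∀ a b : 𝓞 F, b ≠ 0 → ∃ q r : 𝓞 F,
    a = b * q + r ∧ (r = 0 ∨ φ r < φ b) := by
  classical
  refine ⟨fun x => (⌊(x : F).re ^ 2 + 5 * (x : F).re * (x : F).im + (x : F).im ^ 2⌋).natAbs, ?_⟩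
  intro x y hy
  obtain ⟨a, b, rfl⟩ := exists_elt x
  obtain ⟨c, d, rfl⟩ := exists_elt y
  have hval : ∀ (m k : ℤ), ⌊((elt m k : 𝓞 F) : F).re ^ 2
      + 5 * ((elt m k : 𝓞 F) : F).re * ((elt m k : 𝓞 F) : F).im + ((elt m k : 𝓞 F) : F).im ^ 2⌋
      = m ^ 2 + 5 * m * k + k ^ 2 := by
    intro m k
    have : ((elt m k : 𝓞 F) : F).re ^ 2
        + 5 * ((elt m k : 𝓞 F) : F).re * ((elt m k : 𝓞 F) : F).im
        + ((elt m k : 𝓞 F) : F).im ^ 2 = ((m ^ 2 + 5 * m * k + k ^ 2 : ℤ) : ℚ) := by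
      rw [coe_elt]; push_cast; ring
    rw [this, Int.floor_intCast]
  have hN : (c ^ 2 + 5 * c * d + d ^ 2 : ℤ) ≠ 0 := by
    intro h
    apply hy
    have hfact := fact21.out
    by_cases hd : d = 0
    · subst hd
      have : c = 0 := by
        have : c ^ 2 = 0 := by linarith
        exact pow_eq_zero_iff (two_ne_zero) |>.1 this
      subst this
      exact elt_zero
    · exfalso
      apply hfact (-(c : ℚ) / d)
      have hd' : (d : ℚ) ≠ 0 := by exact_mod_cast hd
      have h' : ((c : ℚ)) ^ 2 + 5 * c * d + (d : ℚ) ^ 2 = 0 := by exact_mod_cast h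
      field_simp
      linarith
  set N : ℤ := c ^ 2 + 5 * c * d + d ^ 2 with hNdef
  have hNq : (N : ℚ) ≠ 0 := by exact_mod_cast hN
  set p : ℚ := ((a * c + 5 * a * d + b * d : ℤ) : ℚ) / N with hp
  set q : ℚ := ((b * c - a * d : ℤ) : ℚ) / N with hq
  have hpN : p * N = a * c + 5 * a * d + b * d := by
    rw [hp, div_mul_cancel₀ _ hNq]; push_cast; ring
  have hqN : q * N = b * c - a * d := by
    rw [hq, div_mul_cancel₀ _ hNq]; push_cast; ring
  set k : ℤ := round q with hk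
  set w : ℚ := p + 5 / 2 * (q - k) with hw
  have h2 := abs_sub_round q
  rw [← hk] at h2
  have hv : (q - k) ^ 2 ≤ 1 / 4 := by
    have := sq_le_sq' (by linarith [neg_abs_le (q - k)] : -(1/2) ≤ q - k)
      (by linarith [le_abs_self (q - k)])
    linarith
  obtain ⟨e, he⟩ := small_norm (q - k) (w - round w) hv (abs_sub_round w)
  set m : ℤ := round w + e with hm
  refine ⟨elt m k, elt (a - (c * m - d * k)) (b - (c * k + d * m + 5 * d * k)), ?_, ?_⟩
  · rw [elt_mul, elt_add]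
    congr 1 <;> ring
  · right
    simp only [hval]
    rw [← hNdef]
    have hC : |(p - m) ^ 2 + 5 * (p - m) * (q - k) + (q - k) ^ 2| < 1 := by
      have e1 : (p - m) ^ 2 + 5 * (p - m) * (q - k) + (q - k) ^ 2
          = (w - round w - e) ^ 2 - 21 / 4 * (q - k) ^ 2 := by
        rw [hm, hw]; push_cast; ring
      rw [e1]; exact he
    have hD : (((a - (c * m - d * k)) ^ 2
          + 5 * (a - (c * m - d * k)) * (b - (c * k + d * m + 5 * d * k))
          + (b - (c * k + d * m + 5 * d * k)) ^ 2 : ℤ) : ℚ)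
        = N * ((p - m) ^ 2 + 5 * (p - m) * (q - k) + (q - k) ^ 2) := by
      have hNc : (N : ℚ) = (c : ℚ) ^ 2 + 5 * c * d + (d : ℚ) ^ 2 := by rw [hNdef]; push_cast; ring
      have ha : (a : ℚ) = c * p - d * q := by
        have : (N : ℚ) * a = N * (c * p - d * q) := by
          have e : (N : ℚ) * (c * p - d * q) = c * (p * N) - d * (q * N) := by ring
          rw [e, hpN, hqN, hNc]; ring
        exact mul_left_cancel₀ hNq this
      have hb : (b : ℚ) = c * q + d * p + 5 * d * q := by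
        have : (N : ℚ) * b = N * (c * q + d * p + 5 * d * q) := by
          have e : (N : ℚ) * (c * q + d * p + 5 * d * q)
            = c * (q * N) + d * (p * N) + 5 * d * (q * N) := by ring
          rw [e, hpN, hqN, hNc]; ring
        exact mul_left_cancel₀ hNq this
      push_cast
      rw [hNc, ha, hb]
      ring
    have hE : |(((a - (c * m - d * k)) ^ 2
          + 5 * (a - (c * m - d * k)) * (b - (c * k + d * m + 5 * d * k))
          + (b - (c * k + d * m + 5 * d * k)) ^ 2 : ℤ) : ℚ)| < |(N : ℚ)| := by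
      rw [hD, abs_mul]
      have : 0 < |(N : ℚ)| := abs_pos.2 hNq
      nlinarith
    have hF : |((a - (c * m - d * k)) ^ 2
          + 5 * (a - (c * m - d * k)) * (b - (c * k + d * m + 5 * d * k))
          + (b - (c * k + d * m + 5 * d * k)) ^ 2 : ℤ)| < |N| := by
      exact_mod_cast hE
    rw [Int.abs_eq_natAbs, Int.abs_eq_natAbs] at hF
    exact_mod_cast hF

lemma adjoin_eq_top : IntermediateField.adjoin ℚ {(⟨-5, 2⟩ : F)} = ⊤ := by
  rw [eq_top_iff]
  intro x _
  have hal : ∀ r : ℚ, algebraMap ℚ F r = ⟨r, 0⟩ := fun r => rfl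
  have hx : x = (⟨x.re + 5 / 2 * x.im, 0⟩ : F) + (⟨x.im / 2, 0⟩ : F) * ⟨-5, 2⟩ := by
    ext
    · simp; ring
    · simp
  rw [hx, ← hal, ← hal]
  exact add_mem (IntermediateField.algebraMap_mem _ _)
    (mul_mem (IntermediateField.algebraMap_mem _ _)
      (IntermediateField.mem_adjoin_simple_self ℚ _))

lemma root_sq : (⟨-5, 2⟩ : F) ^ 2 = 21 := by
  have h21r : (21 : F).re = 21 := rfl
  have h21i : (21 : F).im = 0 := rfl
  rw [pow_two]
  ext
  · simp [h21r]; norm_num
  · simp [h21i]; norm_num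

lemma kernel : ∃ x, bykToSteinberg (𝓞 F) F 2 x = 0 ∧ ∀ n : ℤ, n • x = 0 → n = 0 := by
  have hw : elt (-1) 5 * elt 24 (-5) = 1 := by
    rw [elt_mul, ← elt_one]; norm_num
  have hw' : elt 24 (-5) * elt (-1) 5 = 1 := by rw [mul_comm, hw]
  refine criterion F re₁ re₂ unit_sign ⟨elt (-1) 5, elt 24 (-5), hw, hw'⟩ (elt (-1) 2)
    (elt (-2) 1) ?_ ?_ ?_
  · change 0 < re₁ (elt (-1) 5)
    rw [re₁_elt]
    have := t₁_gt
    push_cast
    linarith
  · change elt (-1) 2 * elt (-2) 1 = 1 + elt (-1) 5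
    rw [elt_mul, ← elt_one, elt_add]
    norm_num
  · rw [re₁_elt, re₂_elt]
    have h1 := t₁_gt
    have h2 := t₂_lt
    push_cast
    nlinarith

end

end Pool.Agent.Y511.BY.F21
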