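import Pool.Agent.H741R3.BykCocycle

/-!
A closed chain of four bases is in the kernel of `Byk_2(O) → St_2(K)`; if `1 + u` (`u` a unit which
is positive in two real embeddings with the same signs on all units) has a factor of opposite signs
in the two embeddings, then some such chain has infinite order.
-/

set_option autoImplicit false

open scoped BigOperators

namespace Pool.Agent.Y511.BY

open Pool.Agent.H741R3.Byk

noncomputable section

universe u v

variable {O : Type u} [CommRing O]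

/-- A closed chain of four bases maps to zero. -/
lemma closed_four (K : Type v) [Field K] [Algebra O K] (b₁ b₂ b₃ b₄ : OrdBasis O 2)
    (h1 : b₁.v 1 = b₂.v 0) (h2 : b₂.v 1 = b₃.v 0)
    (h3 : b₃.v 1 = b₄.v 0) (h4 : b₄.v 1 = b₁.v 0) :
    bykToSteinberg O K 2 (toByk O 2 (FreeAbelianGroup.of b₁ + FreeAbelianGroup.of b₂
      + FreeAbelianGroup.of b₃ + FreeAbelianGroup.of b₄)) = 0 := by
  have h : preMap O K 2 (FreeAbelianGroup.of b₁ + FreeAbelianGroup.of b₂
      + FreeAbelianGroup.of b₃ + FreeAbelianGroup.of b₄) = 0 := by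
    apply Subtype.ext
    simp only [preMap, map_add, FreeAbelianGroup.lift_apply_of]
    change apartmentChain K b₁ + apartmentChain K b₂ + apartmentChain K b₃ + apartmentChain K b₄
      = 0
    simp only [apartmentChain_two]
    rw [flag_tel K b₁ b₂ h1, flag_tel K b₂ b₃ h2, flag_tel K b₃ b₄ h3, flag_tel K b₄ b₁ h4]
    abel
  rw [bykToSteinberg_toByk, h, map_zero]

/-- The criterion, for a factor which is positive in the first embedding. -/
theorem criterion_pos (K : Type v) [Field K] [Algebra O K] (f g : O →+* ℝ)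
    (hu : ∀ u : Oˣ, 0 < f u * g u) (w : Oˣ) (c q : O) (hw : 0 < f w) (hcq : c * q = 1 + w)
    (hf : 0 < f q) (hg : g q < 0) :
    ∃ x, bykToSteinberg O K 2 x = 0 ∧ ∀ n : ℤ, n • x = 0 → n = 0 := by
  have hgw : 0 < g w := by
    have := hu w
    exact (pos_iff_pos_of_mul_pos this).1 hw
  have u1 : IsUnit ((![1, 0] : Fin 2 → O) 0 * (![0, 1] : Fin 2 → O) 1
      - (![1, 0] : Fin 2 → O) 1 * (![0, 1] : Fin 2 → O) 0) := by simp
  have u2 : IsUnit ((![0, 1] : Fin 2 → O) 0 * (![1, q] : Fin 2 → O) 1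
      - (![0, 1] : Fin 2 → O) 1 * (![1, q] : Fin 2 → O) 0) := by simp
  have u3 : IsUnit ((![1, q] : Fin 2 → O) 0 * (![c, 1] : Fin 2 → O) 1
      - (![1, q] : Fin 2 → O) 1 * (![c, 1] : Fin 2 → O) 0) := by
    have : (![1, q] : Fin 2 → O) 0 * (![c, 1] : Fin 2 → O) 1
      - (![1, q] : Fin 2 → O) 1 * (![c, 1] : Fin 2 → O) 0 = -(w : O) := by
      simp only [Matrix.cons_val_zero, Matrix.cons_val_one]
      linear_combination -hcq
    rw [this]; exact w.isUnit.neg
  have u4 : IsUnit ((![c, 1] : Fin 2 → O) 0 * (![1, 0] : Fin 2 → O) 1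
      - (![c, 1] : Fin 2 → O) 1 * (![1, 0] : Fin 2 → O) 0) := by simp
  set x₀ : FreeAbelianGroup (OrdBasis O 2) := FreeAbelianGroup.of (mkBasis _ _ u1)
    + FreeAbelianGroup.of (mkBasis _ _ u2) + FreeAbelianGroup.of (mkBasis _ _ u3)
    + FreeAbelianGroup.of (mkBasis _ _ u4) with hx₀
  refine ⟨toByk O 2 x₀, closed_four K _ _ _ _ (by rw [mkBasis_zero, mkBasis_one])
    (by rw [mkBasis_zero, mkBasis_one]) (by rw [mkBasis_zero, mkBasis_one])
    (by rw [mkBasis_zero, mkBasis_one]), ?_⟩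
  have e1 : hdiff f g (mkBasis _ _ u1) = 0 := by
    simp [hdiff, hval, dt, mkBasis_zero, mkBasis_one, sg_zero]
  have e2 : hdiff f g (mkBasis _ _ u2) = -2 := by
    simp only [hdiff, hval, dt, mkBasis_zero, mkBasis_one, Matrix.cons_val_zero,
      Matrix.cons_val_one]
    simp only [map_sub, map_mul, map_one, map_zero]
    rw [sg_neg (by nlinarith), sg_pos (by nlinarith)]
    norm_num
  have e3 : hdiff f g (mkBasis _ _ u3) = -2 := by
    simp only [hdiff, hval, dt, mkBasis_zero, mkBasis_one, Matrix.cons_val_zero,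
      Matrix.cons_val_one]
    have hd : (1 : O) * 1 - q * c = -(w : O) := by linear_combination -hcq
    rw [hd]
    simp only [map_neg, map_one]
    rw [sg_neg (by nlinarith [mul_pos hf hw]), sg_pos (by nlinarith [mul_pos (neg_pos.2 hg) hgw])]
    norm_num
  have e4 : hdiff f g (mkBasis _ _ u4) = 0 := by
    simp [hdiff, hval, dt, mkBasis_zero, mkBasis_one, sg_zero]
  intro n hn
  have h1 : toByk O 2 (n • x₀) = 0 := by rw [map_zsmul]; exact hn
  have hmem := (QuotientAddGroup.eq_zero_iff _).1 h1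
  have hΦ := bykRel_le_ker_functional f g hu hmem
  rw [AddMonoidHom.mem_ker, map_zsmul] at hΦ
  simp only [hx₀, preFunctional, map_add, FreeAbelianGroup.lift_apply_of] at hΦ
  rw [e1, e2, e3, e4] at hΦ
  simp only [smul_eq_mul] at hΦ
  omega

/-- **The criterion.** -/
theorem criterion (K : Type v) [Field K] [Algebra O K] (f g : O →+* ℝ)
    (hu : ∀ u : Oˣ, 0 < f u * g u) (w : Oˣ) (c q : O) (hw : 0 < f w) (hcq : c * q = 1 + w)
    (hq : f q * g q < 0) :
    ∃ x, bykToSteinberg O K 2 x = 0 ∧ ∀ n : ℤ, n • x = 0 → n = 0 := by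
  rcases mul_neg_iff.1 hq with ⟨h1, h2⟩ | ⟨h1, h2⟩
  · exact criterion_pos K f g hu w c q hw hcq h1 h2
  · refine criterion_pos K g f (fun u => by rw [mul_comm]; exact hu u) w c q ?_ hcq h2 h1
    exact (pos_iff_pos_of_mul_pos (hu w)).1 hw

theorem not_injective_of {K : Type v} [Field K] [Algebra O K]
    (h : ∃ x, bykToSteinberg O K 2 x = 0 ∧ ∀ n : ℤ, n • x = 0 → n = 0) :
    ¬ Function.Injective (bykToSteinberg O K 2) := by
  obtain ⟨x, hx, hn⟩ := h
  intro hinj
  have h0 : x = 0 := hinj (by rw [hx, map_zero])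
  have := hn 1 (by rw [h0, smul_zero])
  exact one_ne_zero this

end

end Pool.Agent.Y511.BY
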