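import Pool.Agent.Y511.BY.Crit

/-!
The ring of integers of `ℚ(√21)`: all units have norm `1`, generated by units, Euclidean.
-/

set_option autoImplicit false

open scoped BigOperators NumberField

namespace Pool.Agent.Y511.BY.F21

open Pool.Agent.H741R3.Byk

noncomputable section

lemma not_sq_rat (n : ℕ) (hn : ¬ IsSquare n) (r : ℚ) : r ^ 2 ≠ (n : ℚ) := by
  intro hr
  have h1 : Irrational (√(n : ℝ)) := irrational_sqrt_natCast_iff.2 hn
  apply h1
  refine ⟨|r|, ?_⟩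
  have h2 : ((|r| : ℚ) : ℝ) ^ 2 = (n : ℝ) := by
    have : (|r| : ℚ) ^ 2 = (n : ℚ) := by rw [sq_abs, hr]
    exact_mod_cast this
  have h3 : (0 : ℝ) ≤ ((|r| : ℚ) : ℝ) := by exact_mod_cast abs_nonneg r
  rw [← h2, Real.sqrt_sq h3]

instance fact21 : Fact (∀ r : ℚ, r ^ 2 ≠ -1 + 5 * r) := by
  constructor
  intro r hr
  apply not_sq_rat 21 (by
    rintro ⟨k, hk⟩
    have hk5 : k < 5 := by nlinarith
    interval_cases k <;> omega) (2 * r - 5)
  push_cast
  linear_combination 4 * hr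

/-- The field `ℚ(√21)`, as pairs `(re, im)` standing for `re + im ε`, `ε ^ 2 = 5 ε - 1`. -/
abbrev F : Type := QuadraticAlgebra ℚ (-1) 5

instance : NumberField F where
  to_charZero := inferInstance
  to_finiteDimensional := inferInstance

/-- The two real embeddings: `re + im ε ↦ re + im t` with `t * t = 5 t - 1`. -/
def emb (t : ℝ) (ht : t * t = -1 + 5 * t) : F →ₐ[ℚ] ℝ :=
  QuadraticAlgebra.lift ⟨t, by rw [ht]; simp [Algebra.smul_def]⟩

lemma emb_apply (t : ℝ) (ht : t * t = -1 + 5 * t) (x : F) : emb t ht x = x.re + x.im * t := by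
  change x.re • (1 : ℝ) + x.im • t = x.re + x.im * t
  simp [Algebra.smul_def]

lemma s21 : (√21 : ℝ) * √21 = 21 := Real.mul_self_sqrt (by norm_num)

/-- The larger root. -/
def t₁ : ℝ := (5 + √21) / 2
/-- The smaller root. -/
def t₂ : ℝ := (5 - √21) / 2

lemma ht₁ : t₁ * t₁ = -1 + 5 * t₁ := by unfold t₁; linear_combination s21 / 4
lemma ht₂ : t₂ * t₂ = -1 + 5 * t₂ := by unfold t₂; linear_combination s21 / 4
lemma t_sum : t₁ + t₂ = 5 := by unfold t₁ t₂; ring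
lemma t_prod : t₁ * t₂ = 1 := by unfold t₁ t₂; linear_combination -s21 / 4

lemma t₁_gt : 2 < t₁ := by
  unfold t₁
  have : 0 ≤ (√21 : ℝ) := Real.sqrt_nonneg _
  linarith

lemma t₂_pos : 0 < t₂ := by
  have h := t_prod
  have h1 := t₁_gt
  nlinarith

lemma t₂_lt : t₂ < 2 := by
  have h := t_prod
  have h1 := t₁_gt
  nlinarith

lemma int_of_isIntegral {q : ℚ} (h : IsIntegral ℤ (q : ℝ)) : ∃ m : ℤ, (m : ℚ) = q := by
  have h1 : IsIntegral ℤ q := by
    have : IsIntegral ℤ (algebraMap ℚ ℝ q) := by simpa using h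
    exact (isIntegral_algebraMap_iff (algebraMap ℚ ℝ).injective).1 this
  obtain ⟨m, hm⟩ := IsIntegrallyClosed.isIntegral_iff.1 h1
  exact ⟨m, by simpa using hm⟩

/-- Integers of `ℚ(√21)` are the `a + b ε` with `a`, `b` integers. -/
lemma exists_int (x : F) (hx : IsIntegral ℤ x) : ∃ a b : ℤ, x.re = a ∧ x.im = b := by
  have h1 : IsIntegral ℤ (emb _ ht₁ x) := hx.map (emb _ ht₁)
  have h2 : IsIntegral ℤ (emb _ ht₂ x) := hx.map (emb _ ht₂)
  have hs := h1.add h2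
  have hp := h1.mul h2
  rw [emb_apply, emb_apply] at hs hp
  have e1 : ((x.re : ℝ) + x.im * t₁ + (x.re + x.im * t₂)) = ((2 * x.re + 5 * x.im : ℚ) : ℝ) := by
    push_cast
    linear_combination (x.im : ℝ) * t_sum
  have e2 : ((x.re : ℝ) + x.im * t₁) * (x.re + x.im * t₂)
      = ((x.re ^ 2 + 5 * x.re * x.im + x.im ^ 2 : ℚ) : ℝ) := by
    push_cast
    linear_combination (x.re * x.im : ℝ) * t_sum + (x.im : ℝ) ^ 2 * t_prod
  rw [e1] at hs
  rw [e2] at hp
  obtain ⟨P, hP⟩ := int_of_isIntegral hs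
  obtain ⟨N, hN⟩ := int_of_isIntegral hp
  -- 21 im is an integer
  have hR : ∃ R : ℤ, (R : ℚ) = 21 * x.im := by
    apply int_of_isIntegral
    apply IsIntegral.of_pow (n := 2) (by norm_num)
    have : (((21 * x.im : ℚ) : ℝ)) ^ 2 = ((21 * (P ^ 2 - 4 * N) : ℤ) : ℝ) := by
      have h : ((21 * x.im : ℚ)) ^ 2 = ((21 * (P ^ 2 - 4 * N) : ℤ) : ℚ) := by
        push_cast
        rw [hP, hN]; ring
      exact_mod_cast h
    rw [this]
    exact isIntegral_algebraMap (R := ℤ) (x := 21 * (P ^ 2 - 4 * N))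
  obtain ⟨R, hR⟩ := hR
  have hR2 : R ^ 2 = 21 * (P ^ 2 - 4 * N) := by
    have h : ((R : ℚ)) ^ 2 = 21 * ((P : ℚ) ^ 2 - 4 * N) := by
      rw [hR, hP, hN]; ring
    exact_mod_cast h
  have hd3 : (3 : ℤ) ∣ R := by
    have h3 : Prime (3 : ℤ) := Int.prime_three
    exact h3.dvd_of_dvd_pow (n := 2) ⟨7 * (P ^ 2 - 4 * N), by rw [hR2]; ring⟩
  have hd7 : (7 : ℤ) ∣ R := by
    have h7 : Prime (7 : ℤ) := Int.prime_iff_natAbs_prime.2 (by norm_num)
    exact h7.dvd_of_dvd_pow (n := 2) ⟨3 * (P ^ 2 - 4 * N), by rw [hR2]; ring⟩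
  obtain ⟨Q, hQ⟩ : ∃ Q, R = 21 * Q := ⟨R / 21, by omega⟩
  subst hQ
  have him : x.im = Q := by
    have : (21 : ℚ) * x.im = 21 * Q := by rw [← hR]; push_cast; ring
    linarith
  have hre : 2 * x.re = ((P - 5 * Q : ℤ) : ℚ) := by
    push_cast
    rw [hP, ← him]; ring
  have hk : (P - 5 * Q) ^ 2 + 10 * (P - 5 * Q) * Q + 4 * Q ^ 2 = 4 * N := by
    have h : (((P - 5 * Q : ℤ) : ℚ)) ^ 2 + 10 * ((P - 5 * Q : ℤ) : ℚ) * Q + 4 * (Q : ℚ) ^ 2
        = 4 * N := by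
      rw [← hre, ← him, hN]; ring
    exact_mod_cast h
  have heven : Even (P - 5 * Q) := by
    rcases Int.even_or_odd (P - 5 * Q) with h | h
    · exact h
    · exfalso
      have h1 : Odd ((P - 5 * Q) ^ 2) := h.pow
      have h2 : Even ((P - 5 * Q) ^ 2) := ⟨2 * N - 5 * (P - 5 * Q) * Q - 2 * Q ^ 2, by
        linear_combination hk⟩
      exact (Int.not_even_iff_odd.2 h1) h2
  obtain ⟨a, ha⟩ := heven
  refine ⟨a, Q, ?_, him⟩
  rw [ha] at hre
  push_cast at hre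
  linarith

lemma isIntegral_eps : IsIntegral ℤ (⟨0, 1⟩ : F) := by
  refine ⟨Polynomial.X ^ 2 - 5 * Polynomial.X + 1, by monicity!, ?_⟩
  have h5r : (5 : F).re = 5 := rfl
  have h5i : (5 : F).im = 0 := rfl
  have h1r : (1 : F).re = 1 := rfl
  have h1i : (1 : F).im = 0 := rfl
  have h : (⟨0, 1⟩ : F) ^ 2 - 5 * ⟨0, 1⟩ + 1 = 0 := by
    rw [pow_two]
    ext
    · simp [h5r, h5i, h1r, h1i]
    · simp [h5r, h5i, h1r, h1i]
  simpa using h

/-- The element `a + b ε` of the ring of integers. -/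
def elt (a b : ℤ) : 𝓞 F :=
  ⟨⟨a, b⟩, by
    have h1 : (⟨a, b⟩ : F) = algebraMap ℤ F a + algebraMap ℤ F b * ⟨0, 1⟩ := by
      ext <;> simp
    rw [h1]
    exact (isIntegral_algebraMap.add (isIntegral_algebraMap.mul isIntegral_eps))⟩

lemma ext' {x y : 𝓞 F} (h : algebraMap (𝓞 F) F x = algebraMap (𝓞 F) F y) : x = y :=
  NumberField.RingOfIntegers.ext h

lemma exists_elt (x : 𝓞 F) : ∃ a b : ℤ, x = elt a b := by
  obtain ⟨a, b, ha, hb⟩ := exists_int (x : F) x.isIntegral_coe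
  refine ⟨a, b, ?_⟩
  apply NumberField.RingOfIntegers.ext
  change (x : F) = ⟨a, b⟩
  ext
  · exact ha
  · exact hb

lemma coe_elt (a b : ℤ) : ((elt a b : 𝓞 F) : F) = ⟨a, b⟩ := rfl

lemma elt_inj {a b c d : ℤ} (h : elt a b = elt c d) : a = c ∧ b = d := by
  have h1 := congrArg (fun x : 𝓞 F => (x : F)) h
  simp only [coe_elt] at h1
  have h2 := congrArg QuadraticAlgebra.re h1
  have h3 := congrArg QuadraticAlgebra.im h1
  simp only at h2 h3
  exact ⟨by exact_mod_cast h2, by exact_mod_cast h3⟩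

lemma elt_mul (a b c d : ℤ) :
    elt a b * elt c d = elt (a * c - b * d) (a * d + b * c + 5 * b * d) := by
  apply ext'
  rw [map_mul]
  change (⟨a, b⟩ : F) * ⟨c, d⟩ =
    ⟨((a * c - b * d : ℤ) : ℚ), ((a * d + b * c + 5 * b * d : ℤ) : ℚ)⟩
  ext
  · simp; ring
  · simp

lemma elt_add (a b c d : ℤ) : elt a b + elt c d = elt (a + c) (b + d) := by
  apply ext'
  rw [map_add]
  change (⟨a, b⟩ : F) + ⟨c, d⟩ = ⟨((a + c : ℤ) : ℚ), ((b + d : ℤ) : ℚ)⟩
  ext <;> simp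

lemma elt_one : elt 1 0 = 1 := by
  apply ext'
  rw [map_one]
  change (⟨((1 : ℤ) : ℚ), ((0 : ℤ) : ℚ)⟩ : F) = 1
  ext
  · simp; rfl
  · simp; rfl

lemma elt_zero : elt 0 0 = 0 := by
  apply ext'
  rw [map_zero]
  change (⟨((0 : ℤ) : ℚ), ((0 : ℤ) : ℚ)⟩ : F) = 0
  ext <;> simp

/-- Every unit has norm `1`. -/
lemma norm_unit (a b : ℤ) (h : IsUnit (elt a b)) : a ^ 2 + 5 * a * b + b ^ 2 = 1 := by
  obtain ⟨y, hy⟩ := h.exists_right_inv
  obtain ⟨c, d, rfl⟩ := exists_elt y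
  rw [elt_mul, ← elt_one] at hy
  obtain ⟨h1, h2⟩ := elt_inj hy
  have hN : (a ^ 2 + 5 * a * b + b ^ 2) * (c ^ 2 + 5 * c * d + d ^ 2) = 1 := by
    have : (a ^ 2 + 5 * a * b + b ^ 2) * (c ^ 2 + 5 * c * d + d ^ 2)
        = (a * c - b * d) ^ 2 + 5 * (a * c - b * d) * (a * d + b * c + 5 * b * d)
          + (a * d + b * c + 5 * b * d) ^ 2 := by ring
    rw [this, h1, h2]; norm_num
  rcases Int.eq_one_or_neg_one_of_mul_eq_one hN with h | h
  · exact h
  · exfalso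
    have h3 : (a + b) ^ 2 = -1 - 3 * (a * b) := by linear_combination h
    have h4 : (a + b) % 3 = 0 ∨ (a + b) % 3 = 1 ∨ (a + b) % 3 = 2 := by omega
    have h5 : ((a + b) ^ 2) % 3 = 2 := by rw [h3]; omega
    rcases h4 with ha | ha | ha <;> simp [pow_two, Int.mul_emod, ha] at h5

/-- Real embedding of the ring of integers. -/
def re₁ : 𝓞 F →+* ℝ := (emb _ ht₁).toRingHom.comp (algebraMap (𝓞 F) F)
/-- Real embedding of the ring of integers. -/
def re₂ : 𝓞 F →+* ℝ := (emb _ ht₂).toRingHom.comp (algebraMap (𝓞 F) F)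

lemma re₁_elt (a b : ℤ) : re₁ (elt a b) = a + b * t₁ := by
  change emb _ ht₁ (⟨a, b⟩ : F) = _
  rw [emb_apply]; simp

lemma re₂_elt (a b : ℤ) : re₂ (elt a b) = a + b * t₂ := by
  change emb _ ht₂ (⟨a, b⟩ : F) = _
  rw [emb_apply]; simp

lemma unit_sign (u : (𝓞 F)ˣ) : 0 < re₁ u * re₂ u := by
  obtain ⟨a, b, hab⟩ := exists_elt (u : 𝓞 F)
  have h1 := norm_unit a b (hab ▸ u.isUnit)
  rw [hab, re₁_elt, re₂_elt]
  have h2 : ((a : ℝ) + b * t₁) * (a + b * t₂) = ((a ^ 2 + 5 * a * b + b ^ 2 : ℤ) : ℝ) := by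
    push_cast
    linear_combination (a * b : ℝ) * t_sum + (b : ℝ) ^ 2 * t_prod
  rw [h2, h1]; norm_num

/-- One of three translates of `s` has small norm. -/
lemma small_norm (v s : ℚ) (hv : v ^ 2 ≤ 1 / 4) (hs : |s| ≤ 1 / 2) :
    ∃ e : ℤ, |(s - e) ^ 2 - 21 / 4 * v ^ 2| < 1 := by
  have hs' := abs_le.1 hs
  have hs2 : s ^ 2 ≤ 1 / 4 := by nlinarith
  have hne : 21 * v ^ 2 ≠ 5 := by
    intro h
    apply not_sq_rat 105 (by
      rintro ⟨k, hk⟩
      have hk5 : k < 11 := by nlinarith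
      interval_cases k <;> omega) (21 * v)
    push_cast
    linear_combination 21 * h
  have hv0 : 0 ≤ v ^ 2 := sq_nonneg v
  by_cases h : 21 / 4 * v ^ 2 - s ^ 2 < 1
  · refine ⟨0, ?_⟩
    rw [abs_lt]
    push_cast
    constructor <;> nlinarith
  · push Not at h
    rcases le_total 0 s with h0 | h0
    · refine ⟨-1, ?_⟩
      rw [abs_lt]
      push_cast
      constructor
      · nlinarith
      · by_contra hc
        push Not at hc
        have h1 : s = 1 / 2 := by nlinarith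
        apply hne
        rw [h1] at h hc
        nlinarith
    · refine ⟨1, ?_⟩
      rw [abs_lt]
      push_cast
      constructor
      · nlinarith
      · by_contra hc
        push Not at hc
        have h1 : s = -1 / 2 := by nlinarith
        apply hne
        rw [h1] at h hc
        nlinarith

end

end Pool.Agent.Y511.BY.F21
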